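import Pool.Agent.Q23.EG.Stm

/-!
# Project EG, job A1: Gauss sums (helper121)
-/

set_option autoImplicit false

open Finset

namespace Pool.Agent.Q121.EG.A1

theorem G_unit {k : Type} [Field k] {Q : ℕ} [NeZero Q] (χ : MulChar (ZMod Q) k) (e : AddChar (ZMod Q) k)
    (u : (ZMod Q)ˣ) : ∑ c : ZMod Q, χ⁻¹ c * e (c * (u : ZMod Q)) =
      χ (u : ZMod Q) * ∑ c : ZMod Q, χ⁻¹ c * e c := by
  rw [mul_sum]
  refine Fintype.sum_equiv (Units.mulRight u) _ _ fun c => ?_
  simp only [Units.mulRight_apply, map_mul]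
  have h1 : χ (u : ZMod Q) * χ⁻¹ (u : ZMod Q) = 1 := by
    rw [← MulChar.mul_apply, mul_inv_cancel, MulChar.one_apply_coe]
  linear_combination (-(χ⁻¹ c * e (c * (u : ZMod Q)))) * h1

theorem G_shift {k : Type} [Field k] {Q : ℕ} [NeZero Q] (χ : MulChar (ZMod Q) k) (e : AddChar (ZMod Q) k)
    (y : ZMod Q) (u : (ZMod Q)ˣ) (hu : (u : ZMod Q) * y = y) (hχ : χ (u : ZMod Q) ≠ 1) :
    ∑ c : ZMod Q, χ⁻¹ c * e (c * y) = 0 := by
  have h1 : χ (u : ZMod Q) * χ⁻¹ (u : ZMod Q) = 1 := by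
    rw [← MulChar.mul_apply, mul_inv_cancel, MulChar.one_apply_coe]
  have h2 : ∑ c : ZMod Q, χ⁻¹ c * e (c * y) = χ (u : ZMod Q) * ∑ c : ZMod Q, χ⁻¹ c * e (c * y) := by
    rw [mul_sum]
    refine Fintype.sum_equiv (Units.mulRight u) _ _ fun c => ?_
    simp only [Units.mulRight_apply, map_mul]
    rw [mul_assoc c, hu]
    linear_combination (-(χ⁻¹ c * e (c * y))) * h1
  have h3 : (χ (u : ZMod Q) - 1) * ∑ c : ZMod Q, χ⁻¹ c * e (c * y) = 0 := by
    rw [sub_mul, one_mul, ← h2, sub_self]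
  rcases mul_eq_zero.1 h3 with h | h
  · exact absurd (sub_eq_zero.1 h) hχ
  · exact h

theorem gauss : Pool.Agent.Q23.EG.S_gauss := by
  intro k _ Q _ χ e hQ N w hw
  have hG : ∀ y : ℕ, ∑ c : ZMod Q, χ⁻¹ c * e (c * (y : ZMod Q)) =
      χ (y : ZMod Q) * ∑ c : ZMod Q, χ⁻¹ c * e c := by
    intro y
    by_cases hy : Nat.Coprime y Q
    · have h1 := G_unit χ e (ZMod.unitOfCoprime y hy)
      simpa only [ZMod.coe_unitOfCoprime] using h1
    · obtain ⟨l, hl, hly, hlQ⟩ := Nat.Prime.not_coprime_iff_dvd.1 hy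
      obtain ⟨h2, h3⟩ := hQ l hl hlQ
      have hnu : ¬ IsUnit (y : ZMod Q) := by
        rw [ZMod.isUnit_iff_coprime]
        exact hy
      rw [MulChar.map_nonunit _ hnu, zero_mul]
      have hco : Nat.Coprime (1 + Q / l) Q := by
        refine Nat.coprime_of_dvd fun p hp h4 h5 => ?_
        have h6 : p ∣ Q / l := by
          obtain ⟨m, hm⟩ := h2
          by_cases hpl : p = l
          · subst hpl
            refine ⟨m, ?_⟩
            rw [hm, pow_two, mul_assoc, Nat.mul_div_cancel_left _ hp.pos]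
          · have h7 : Q = l * (Q / l) := (Nat.mul_div_cancel' hlQ).symm
            rw [h7] at h5
            rcases (Nat.Prime.dvd_mul hp).1 h5 with h8 | h8
            · exact absurd ((Nat.prime_dvd_prime_iff_eq hp hl).1 h8) hpl
            · exact h8
        have h9 : p ∣ 1 := (Nat.dvd_add_left h6).1 h4
        exact hp.one_lt.ne' (Nat.dvd_one.1 h9)
      refine G_shift χ e (y : ZMod Q) (ZMod.unitOfCoprime _ hco) ?_ ?_
      · rw [ZMod.coe_unitOfCoprime]
        obtain ⟨m, hm⟩ := hly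
        have h5 : ((Q / l * y : ℕ) : ZMod Q) = 0 := by
          rw [ZMod.natCast_eq_zero_iff, hm, ← mul_assoc, Nat.div_mul_cancel hlQ]
          exact dvd_mul_right _ _
        have h6 : ((1 + Q / l : ℕ) : ZMod Q) * (y : ZMod Q) = (y : ZMod Q) + ((Q / l * y : ℕ) : ZMod Q) := by
          push_cast
          ring
        rw [h6, h5, add_zero]
      · rw [ZMod.coe_unitOfCoprime]
        exact h3
  calc ∑ c : ZMod Q, χ⁻¹ c * ∑ y ∈ range N, w y * e (c * (y : ZMod Q))
      = ∑ y ∈ range N, w y * ∑ c : ZMod Q, χ⁻¹ c * e (c * (y : ZMod Q)) := by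
        simp only [mul_sum]
        rw [sum_comm]
        refine sum_congr rfl fun y _ => sum_congr rfl fun c _ => ?_
        ring
    _ = (∑ y ∈ range N, w y * χ (y : ZMod Q)) * ∑ c : ZMod Q, χ⁻¹ c * e c := by
        rw [sum_mul]
        refine sum_congr rfl fun y _ => ?_
        rw [hG]
        ring
    _ = 0 := by rw [hw, zero_mul]

end Pool.Agent.Q121.EG.A1
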